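import Mathlib
import Pool.Agent.Helper13.TU.Defs

/-!
# TU-4: Liouville inequality for the tensor square of the ring of integers
-/

set_option autoImplicit false

open NumberField Polynomial Module IntermediateField
open scoped TensorProduct

namespace Pool.Agent.Helper13.TU

variable {K : Type*} [Field K] [NumberField K]

/-- the ring homomorphism `a ⊗ b ↦ s a * t b` for any commutative target -/
noncomputable def phiG {B : Type*} [CommRing B] (s t : K →+* B) : 𝓞 K ⊗[ℤ] 𝓞 K →+* B :=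
  (Algebra.TensorProduct.lift
    ((s.comp (algebraMap (𝓞 K) K)).toIntAlgHom) ((t.comp (algebraMap (𝓞 K) K)).toIntAlgHom)
    (fun _ _ => Commute.all _ _)).toRingHom

omit [NumberField K] in
theorem phiG_tmul {B : Type*} [CommRing B] (s t : K →+* B) (a b : 𝓞 K) :
    phiG s t (a ⊗ₜ b) = s (a : K) * t (b : K) := by
  simp [phiG]

omit [NumberField K] in
theorem comp_phiG {B : Type*} [CommRing B] (s t : K →+* B) (ψ : B →+* ℂ) (T : 𝓞 K ⊗[ℤ] 𝓞 K) :
    phi (ψ.comp s) (ψ.comp t) T = ψ (phiG s t T) := by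
  induction T using TensorProduct.induction_on with
  | zero => simp
  | tmul a b => rw [phi_tmul, phiG_tmul]; simp
  | add x y hx hy => rw [map_add, hx, hy, map_add, map_add]

/-- all conjugates of `phi σ₁ σ₂ T` are of the form `phi σ τ T` -/
theorem exists_conj (T : 𝓞 K ⊗[ℤ] 𝓞 K) (σ₁ σ₂ : K →+* ℂ) (w : ℂ)
    (hw : aeval w (minpoly ℚ (phi σ₁ σ₂ T)) = 0) : ∃ σ τ : K →+* ℂ, phi σ τ T = w := by
  set Q := algebraicClosure ℚ ℂ with hQ
  have hmem : ∀ (σ : K →+* ℂ) (x : K), σ.toRatAlgHom x ∈ Q.toSubalgebra := by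
    intro σ x
    show IsIntegral ℚ (σ.toRatAlgHom x)
    exact (Algebra.IsIntegral.isIntegral (R := ℚ) x).map σ.toRatAlgHom
  let s : (K →+* ℂ) → (K →+* Q) := fun σ => (σ.toRatAlgHom.codRestrict Q.toSubalgebra (hmem σ)).toRingHom
  have hs : ∀ σ : K →+* ℂ, (algebraMap Q ℂ).comp (s σ) = σ := by
    intro σ
    ext x
    rfl
  have hv : algebraMap Q ℂ (phiG (s σ₁) (s σ₂) T) = phi σ₁ σ₂ T := by
    rw [← comp_phiG, hs, hs]
  have hmin : minpoly ℚ (phiG (s σ₁) (s σ₂) T) = minpoly ℚ (phi σ₁ σ₂ T) := by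
    rw [← hv]
    exact (minpoly.algebraMap_eq (algebraMap Q ℂ).injective _).symm
  obtain ⟨ψ, hψ⟩ := exists_algHom_of_splits_of_aeval (F := ℚ) (E := Q) (K := ℂ)
    (fun x => ⟨((algebraicClosure.isAlgebraic ℚ ℂ).isAlgebraic x).isIntegral, IsAlgClosed.splits _⟩) (hmin ▸ hw)
  refine ⟨ψ.toRingHom.comp (s σ₁), ψ.toRingHom.comp (s σ₂), ?_⟩
  rw [comp_phiG]
  exact hψ

/-- TU-4 -/
theorem liouville_tensor (T : 𝓞 K ⊗[ℤ] 𝓞 K) (σ₁ σ₂ : K →+* ℂ) (H : ℝ) (hH : 1 ≤ H)
    (h : ∀ σ τ : K →+* ℂ, ‖phi σ τ T‖ ≤ H) (hne : phi σ₁ σ₂ T ≠ 0) :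
    1 ≤ H ^ (finrank ℚ K ^ 2) * ‖phi σ₁ σ₂ T‖ := by
  classical
  set v := phi σ₁ σ₂ T with hv
  have hint : IsIntegral ℤ v := by
    have h1 : IsIntegral ℤ T := Algebra.IsIntegral.isIntegral T
    exact map_isIntegral_int (phi σ₁ σ₂) h1
  have hintQ : IsIntegral ℚ v := hint.tower_top
  set m := minpoly ℚ v with hm
  set P := m.map (algebraMap ℚ ℂ) with hP
  have hmon : m.Monic := minpoly.monic hintQ
  have hPmon : P.Monic := hmon.map _
  have hPne : P ≠ 0 := hPmon.ne_zero
  have hsep : m.Separable := (minpoly.irreducible hintQ).separable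
  have hnodup : P.roots.Nodup := nodup_roots (hsep.map)
  have hroot : ∀ w ∈ P.roots, ∃ σ τ : K →+* ℂ, phi σ τ T = w := by
    intro w hw
    rw [mem_roots hPne, IsRoot.def, hP, eval_map_algebraMap] at hw
    exact exists_conj T σ₁ σ₂ w hw
  -- the number of roots
  have hcard : P.roots.card ≤ finrank ℚ K ^ 2 := by
    have h1 : P.roots.toFinset ⊆ Finset.univ.image (fun p : (K →+* ℂ) × (K →+* ℂ) => phi p.1 p.2 T) := by
      intro w hw
      rw [Multiset.mem_toFinset] at hw
      obtain ⟨σ, τ, hστ⟩ := hroot w hw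
      rw [Finset.mem_image]
      exact ⟨(σ, τ), Finset.mem_univ _, hστ⟩
    have h2 := (Finset.card_le_card h1).trans Finset.card_image_le
    rw [Multiset.toFinset_card_of_nodup hnodup, Finset.card_univ, Fintype.card_prod,
      NumberField.Embeddings.card] at h2
    rw [sq]; exact h2
  -- the product of the roots
  have hcoeff : P.coeff 0 = ((minpoly ℤ v).coeff 0 : ℂ) := by
    rw [hP, hm, minpoly.isIntegrallyClosed_eq_field_fractions' ℚ hint, coeff_map, coeff_map]
    simp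
  have hc0 : (minpoly ℤ v).coeff 0 ≠ 0 := by
    intro h0
    have h1 : P.coeff 0 = 0 := by rw [hcoeff, h0]; simp
    have h2 : m.coeff 0 = 0 := by
      rw [hP, coeff_map] at h1
      exact (map_eq_zero _).mp h1
    exact hne ((minpoly.coeff_zero_eq_zero hintQ).mp h2)
  have hprod : 1 ≤ (P.roots.map (fun w => ‖w‖)).prod := by
    have h1 := (IsAlgClosed.splits P).coeff_zero_eq_prod_roots_of_monic hPmon
    have h2 : ‖P.coeff 0‖ = (P.roots.map (fun w => ‖w‖)).prod := by
      rw [h1, norm_mul, norm_pow, norm_neg, norm_one, one_pow, one_mul]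
      exact map_multiset_prod (normHom : ℂ →*₀ ℝ) P.roots
    rw [← h2, hcoeff, Complex.norm_intCast]
    have : (1 : ℤ) ≤ |(minpoly ℤ v).coeff 0| := Int.one_le_abs hc0
    exact_mod_cast this
  have hvmem : v ∈ P.roots := by
    rw [mem_roots hPne, IsRoot.def, hP, eval_map_algebraMap]
    exact minpoly.aeval ℚ v
  obtain ⟨R, hR⟩ := Multiset.exists_cons_of_mem hvmem
  rw [hR] at hprod hcard hroot
  rw [Multiset.map_cons, Multiset.prod_cons] at hprod
  have hRle : (R.map (fun w => ‖w‖)).prod ≤ H ^ R.card := by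
    have : ∀ S : Multiset ℂ, (∀ w ∈ S, ‖w‖ ≤ H) → (S.map (fun w => ‖w‖)).prod ≤ H ^ S.card := by
      intro S
      induction S using Multiset.induction_on with
      | empty => simp
      | cons a S ih =>
        intro hS
        rw [Multiset.map_cons, Multiset.prod_cons, Multiset.card_cons, pow_succ, mul_comm]
        apply mul_le_mul (ih fun w hw => hS w (Multiset.mem_cons_of_mem hw))
          (hS a (Multiset.mem_cons_self a S)) (norm_nonneg _) (by positivity)
    apply this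
    intro w hw
    obtain ⟨σ, τ, hστ⟩ := hroot w (Multiset.mem_cons_of_mem hw)
    rw [← hστ]; exact h σ τ
  have hRcard : R.card ≤ finrank ℚ K ^ 2 := by
    rw [Multiset.card_cons] at hcard
    omega
  calc (1 : ℝ) ≤ ‖v‖ * (R.map (fun w => ‖w‖)).prod := hprod
    _ ≤ ‖v‖ * H ^ (finrank ℚ K ^ 2) :=
        mul_le_mul_of_nonneg_left (hRle.trans (pow_le_pow_right₀ hH hRcard)) (norm_nonneg _)
    _ = _ := mul_comm _ _

end Pool.Agent.Helper13.TU
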